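import Mathlib
import Pool.Agent.W844.GP.Defs

/-!
# Project GP: surgery on a strict bridge (`S_SUR → S_RUN`)
-/

set_option autoImplicit false

open Finset

namespace Pool.Agent.W681.GP

open Pool.Agent.W844.VG (V stp nm)
open Pool.Agent.W844.GP

theorem abs_le_of_nm {d : ℕ} (z : V d) (r : ℕ) (h : nm z ≤ r) (i : Fin d) : |z i| ≤ r := by
  have h1 : (z i).natAbs ≤ nm z := Finset.le_sup (f := fun j => (z j).natAbs) (Finset.mem_univ i)
  have h2 : ((z i).natAbs : ℤ) = |z i| := Int.natCast_natAbs (z i)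
  have h3 : (z i).natAbs ≤ r := h1.trans h
  rw [← h2]
  exact_mod_cast h3

theorem wt_nodup {d : ℕ} (w : V d → ℝ) (l : List (V d)) (h : l.Nodup) :
    wt w l = ∑ z ∈ l.toFinset, w z := by
  rw [wt, List.sum_toFinset w h]

theorem run : S_SUR → S_RUN := by
  classical
  intro hs d i h2 w K Λ A x y l N hK hA hSB hAh hop hΛ hN
  obtain ⟨⟨hch, hnd⟩, hlast, hht⟩ := hSB
  obtain ⟨l', ⟨hch', hnd'⟩, hlast', hmem⟩ := hs d i h2 A hA x y l hch hlast
    (fun a ha => by have := hAh a ha; omega)
  have hxl' : x ∉ l' := (List.nodup_cons.mp hnd').1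
  have hndl' : l'.Nodup := (List.nodup_cons.mp hnd').2
  have hmem' : ∀ z ∈ l', z ∉ A ∧ (z ∈ l ∨ z ∈ Nb A 2) := by
    intro z hz
    obtain ⟨h1, h3⟩ := hmem z (List.mem_cons_of_mem _ hz)
    refine ⟨h1, ?_⟩
    rcases h3 with h3 | h3
    · rcases List.mem_cons.mp h3 with h4 | h4
      · exact absurd (h4 ▸ hz) hxl'
      · exact Or.inl h4
    · exact Or.inr h3
  refine ⟨l', ⟨⟨hch', hnd'⟩, hlast', ?_⟩, ?_, ?_⟩
  · intro z hz
    rcases (hmem' z hz).2 with h | h
    · exact hht z h
    · obtain ⟨a, ha, hza⟩ := h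
      have h5 := abs_le_of_nm (z - a) 2 hza i
      have h6 := hAh a ha
      have h7 : (z - a) i = z i - a i := rfl
      rw [h7, abs_le] at h5
      push_cast at h5
      omega
  · have hsub : l'.toFinset ⊆ l.toFinset ∪ l'.toFinset.filter (fun z => z ∈ Nb A 2) := by
      intro z hz
      have hz' : z ∈ l' := List.mem_toFinset.mp hz
      rcases (hmem' z hz').2 with h | h
      · exact Finset.mem_union_left _ (List.mem_toFinset.mpr h)
      · exact Finset.mem_union_right _ (Finset.mem_filter.mpr ⟨hz, h⟩)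
    calc l'.length = l'.toFinset.card := (List.toFinset_card_of_nodup hndl').symm
      _ ≤ _ := Finset.card_le_card hsub
      _ ≤ _ := Finset.card_union_le _ _
      _ ≤ l.length + N := Nat.add_le_add (List.toFinset_card_le l)
          (hN _ (fun z hz => (Finset.mem_filter.mp hz).2))
  · intro l'' hpre
    have hsubl : ∀ z ∈ l'', z ∈ l' := fun z hz => hpre.subset hz
    have hnd'' : l''.Nodup := hndl'.sublist hpre.sublist
    rw [wt_nodup w l'' hnd'', ← Finset.sum_filter_add_sum_filter_not l''.toFinset (fun z => z ∈ l)]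
    have h1 : -Λ ≤ ∑ z ∈ l''.toFinset.filter (fun z => z ∈ l), w z := by
      apply hΛ
      intro z hz
      rw [Finset.mem_filter, List.mem_toFinset] at hz
      exact ⟨hz.2, (hmem' z (hsubl z hz.1)).1⟩
    have h2' : -(K * N) ≤ ∑ z ∈ l''.toFinset.filter (fun z => ¬ z ∈ l), w z := by
      have hnb : ∀ z ∈ l''.toFinset.filter (fun z => ¬ z ∈ l), z ∈ Nb A 2 := by
        intro z hz
        rw [Finset.mem_filter, List.mem_toFinset] at hz
        exact (hmem' z (hsubl z hz.1)).2.resolve_left hz.2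
      have hc : ((l''.toFinset.filter (fun z => ¬ z ∈ l)).card : ℝ) ≤ N := by
        exact_mod_cast hN _ hnb
      have h3 : ∑ z ∈ l''.toFinset.filter (fun z => ¬ z ∈ l), (-K) ≤
          ∑ z ∈ l''.toFinset.filter (fun z => ¬ z ∈ l), w z := by
        apply Finset.sum_le_sum
        intro z hz
        have hz' := hz
        rw [Finset.mem_filter, List.mem_toFinset] at hz
        exact hop z (hmem' z (hsubl z hz.1)).1 (hnb z hz')
      rw [Finset.sum_const, nsmul_eq_mul] at h3
      have h4 : K * ((l''.toFinset.filter (fun z => ¬ z ∈ l)).card : ℝ) ≤ K * N :=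
        mul_le_mul_of_nonneg_left hc hK
      linarith
    linarith

end Pool.Agent.W681.GP
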